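import Pool.Agent.U260.GZ.Stm

set_option autoImplicit false

/-!
Project GZ, package MB: the measure of the bad set
-/

namespace Pool.Agent.U511.GZ

open Complex Filter Topology MeasureTheory Set
open scoped ENNReal
open Pool.Agent.Y969.GP (ff)
open Pool.Agent.N879.GD

theorem ff_meas : Measurable ff := by
  have h1 : Continuous fun u : ℝ => riemannZeta (1 / 2 + I * u) := by
    rw [continuous_iff_continuousAt]
    intro u
    have hne : (1 / 2 + I * (u : ℂ)) ≠ 1 := by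
      intro h
      have := congrArg Complex.re h
      simp at this
    exact ContinuousAt.comp (f := fun u : ℝ => (1 / 2 + I * (u : ℂ))) (g := riemannZeta)
      (differentiableAt_riemannZeta hne).continuousAt (by fun_prop)
  unfold ff
  exact (h1.norm.pow 2).measurable

theorem D0_meas : Measurable D0 := by
  unfold D0
  exact (Real.measurable_log.comp (measurable_id.div_const _)).add_const _

theorem dif_meas (k : ℕ) : Measurable fun p : (Fin k → ℝ) × ℝ => dif p.1 p.2 := by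
  unfold dif
  have h : ∀ j : Fin k, Measurable fun p : (Fin k → ℝ) × ℝ => p.1 j * p.2 := fun j =>
    ((measurable_pi_apply j).comp measurable_fst).mul measurable_snd
  exact (Finset.measurable_fun_prod _ fun j _ => ff_meas.comp (h j)).sub
    (Finset.measurable_fun_prod _ fun j _ => D0_meas.comp (h j))

/-- the weighted integral is a measurable function of the dilations -/
theorem int_meas {k : ℕ} {F : ℝ → ℂ} (hF : Measurable F) (s : Set ℝ) :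
    Measurable fun l : Fin k → ℝ => ∫ t in s, F t * ((dif l t : ℝ) : ℂ) := by
  have h : Measurable (Function.uncurry fun (l : Fin k → ℝ) (t : ℝ) => F t * ((dif l t : ℝ) : ℂ)) := by
    have := dif_meas k
    exact (hF.comp measurable_snd).mul (Complex.measurable_ofReal.comp this)
  exact (h.stronglyMeasurable.integral_prod_right (ν := volume.restrict s)).measurable

/-- Chebyshev's inequality -/
theorem cheb {k : ℕ} {Ψ : (Fin k → ℝ) → ℂ} (hΨ : Measurable Ψ) {D : Set (Fin k → ℝ)}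
    (hD : MeasurableSet D) {X : ℝ≥0∞} (hX : ∫⁻ l in D, ‖Ψ l‖ₑ ^ 2 ≤ X) {τ : ℝ} (hτ : 0 < τ) :
    volume ({l | τ < ‖Ψ l‖} ∩ D) ≤ X / ENNReal.ofReal (τ ^ 2) := by
  rw [← Measure.restrict_apply' hD]
  have hne : ENNReal.ofReal (τ ^ 2) ≠ 0 := by
    rw [Ne, ENNReal.ofReal_eq_zero, not_le]
    positivity
  have h1 := meas_ge_le_lintegral_div (μ := volume.restrict D) (f := fun l => ‖Ψ l‖ₑ ^ 2)
    (hΨ.enorm.pow_const 2).aemeasurable hne ENNReal.ofReal_ne_top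
  refine (measure_mono ?_).trans (h1.trans (ENNReal.div_le_div_right hX _))
  intro l hl
  simp only [mem_ofPred_eq] at hl ⊢
  rw [← ofReal_norm_eq_enorm, ← ENNReal.ofReal_pow (norm_nonneg _)]
  apply ENNReal.ofReal_le_ofReal
  exact pow_le_pow_left₀ hτ.le hl.le 2

/-- one cell -/
theorem cell {k : ℕ} {F : ℝ → ℂ} (hF : Measurable F) {A c C T δ τ : ℝ} {Y : ℝ≥0∞} {a b : ℝ}
    (hT : 0 < T) (ha : T ≤ a) (hb : b ≤ 2 * T)
    (h : ∀ F : ℝ → ℂ, Measurable F →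
      ∫⁻ l in Icc (fun _ : Fin k => A⁻¹) (fun _ => A),
        ‖∫ t in Icc T (2 * T), F t * ((dif l t : ℝ) : ℂ)‖ₑ ^ 2 ≤
      ENNReal.ofReal (C * T ^ (1 - 2 * δ)) * ∫⁻ t in Icc T (2 * T), ‖F t‖ₑ ^ 2)
    (hY : ∫⁻ t in Icc T (2 * T), ‖F t‖ₑ ^ 2 ≤ Y) (hτ : 0 < τ) :
    volume ({l : Fin k → ℝ | τ < JJ F l a b} ∩ Icc (fun _ => A⁻¹) (fun _ => A)) ≤
      ENNReal.ofReal (C * T ^ (1 - 2 * δ)) * Y / ENNReal.ofReal (τ ^ 2) := by
  have hsub : Icc a b ⊆ Icc T (2 * T) := Icc_subset_Icc ha hb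
  have h1 := h ((Icc a b).indicator F) (hF.indicator measurableSet_Icc)
  have e1 : ∀ l : Fin k → ℝ, ∫ t in Icc T (2 * T), (Icc a b).indicator F t * ((dif l t : ℝ) : ℂ) =
      ∫ t in Icc a b, F t * ((dif l t : ℝ) : ℂ) := by
    intro l
    have e2 : (fun t => (Icc a b).indicator F t * ((dif l t : ℝ) : ℂ)) =
        (Icc a b).indicator fun t => F t * ((dif l t : ℝ) : ℂ) := by
      funext t
      rw [Set.indicator_mul_left]
    rw [e2, setIntegral_indicator measurableSet_Icc, inter_eq_right.2 hsub]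
  simp only [e1] at h1
  have h2 : ∫⁻ t in Icc T (2 * T), ‖(Icc a b).indicator F t‖ₑ ^ 2 ≤ Y := by
    refine (lintegral_mono fun t => ?_).trans hY
    by_cases ht : t ∈ Icc a b
    · rw [indicator_of_mem ht]
    · rw [indicator_of_notMem ht]
      simp
  have h3 : ∫⁻ l in Icc (fun _ : Fin k => A⁻¹) (fun _ => A),
      ‖∫ t in Icc a b, F t * ((dif l t : ℝ) : ℂ)‖ₑ ^ 2 ≤
      ENNReal.ofReal (C * T ^ (1 - 2 * δ)) * Y := h1.trans (by gcongr)
  exact cheb (int_meas hF (Icc a b)) measurableSet_Icc h3 hτ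

/-- **MB**: measure of the bad set -/
theorem t_MB : S_MB := by
  intro δ θ ρ κ hδ hθ hθ1 hρ hρ1 hP hlt k F hF A c hA hc
  obtain ⟨hFm, hFg⟩ := hF
  obtain ⟨C1, T0, hC1, hT0, h1⟩ := hP k A hA
  obtain ⟨ε, hε⟩ : ∃ ε, ε = 2 * δ - θ - 2 * ρ - κ := ⟨_, rfl⟩
  have hε0 : 0 < ε := by linarith
  obtain ⟨C2, hC2, h2⟩ := hFg ε hε0
  refine ⟨4 * C1 * C2 * 2 ^ (1 + ε) / c ^ 2, by positivity, ?_⟩
  have ht : Tendsto (fun n : ℕ => (2 : ℝ) ^ n) atTop atTop :=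
    tendsto_pow_atTop_atTop_of_one_lt (by norm_num)
  filter_upwards [ht.eventually_ge_atTop T0] with n hn
  obtain ⟨T, hT⟩ : ∃ T : ℝ, T = 2 ^ n := ⟨_, rfl⟩
  rw [← hT] at hn ⊢
  have hT1 : 1 ≤ T := by linarith
  have hTp : 0 < T := by linarith
  obtain ⟨N, hN⟩ : ∃ N, N = NN θ n := ⟨_, rfl⟩
  have hTθ : 1 ≤ T ^ θ := Real.one_le_rpow hT1 hθ.le
  have hN2 : (N : ℝ) ≤ 2 * T ^ θ := by
    rw [hN]
    unfold NN
    rw [← hT]
    have := Nat.ceil_lt_add_one (show 0 ≤ T ^ θ by positivity)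
    linarith
  have hN0 : 0 < N := by
    rw [hN]
    unfold NN
    rw [← hT]
    exact Nat.ceil_pos.2 (by linarith)
  have hNr : (0 : ℝ) < N := by exact_mod_cast hN0
  -- endpoints of the cells
  have hgp0 : ∀ i : ℕ, T ≤ gp θ n i := by
    intro i
    unfold gp
    rw [← hT]
    have : (0 : ℝ) ≤ (i : ℝ) / NN θ n := by positivity
    nlinarith
  have hgp1 : ∀ i : ℕ, i ≤ N → gp θ n i ≤ 2 * T := by
    intro i hi
    unfold gp
    rw [← hT, ← hN]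
    have : (i : ℝ) / N ≤ 1 := by
      rw [div_le_one hNr]
      exact_mod_cast hi
    nlinarith
  obtain ⟨τ, hτ⟩ : ∃ τ, τ = c * T ^ (1 - ρ) := ⟨_, rfl⟩
  have hτ0 : 0 < τ := by rw [hτ]; positivity
  -- the mean square of the weight
  have hYF : ∫⁻ t in Icc T (2 * T), ‖F t‖ₑ ^ 2 ≤ ENNReal.ofReal (C2 * (2 * T) ^ (1 + ε)) := by
    refine (lintegral_mono_set ?_).trans (h2 (2 * T) (by linarith))
    intro t ht
    exact ⟨lt_of_lt_of_le hTp ht.1, ht.2⟩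
  have hYG : ∫⁻ t in Icc T (2 * T), ‖((‖F t‖ : ℝ) : ℂ)‖ₑ ^ 2 ≤
      ENNReal.ofReal (C2 * (2 * T) ^ (1 + ε)) := by
    refine (le_of_eq ?_).trans hYF
    congr 1
    funext t
    congr 1
    rw [← ofReal_norm_eq_enorm, ← ofReal_norm_eq_enorm, Complex.norm_real, norm_norm]
  have hGm : Measurable fun t => ((‖F t‖ : ℝ) : ℂ) := Complex.measurable_ofReal.comp hFm.norm
  have h3 : ∀ F : ℝ → ℂ, Measurable F →
      ∫⁻ l in Icc (fun _ : Fin k => A⁻¹) (fun _ => A),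
        ‖∫ t in Icc T (2 * T), F t * ((dif l t : ℝ) : ℂ)‖ₑ ^ 2 ≤
      ENNReal.ofReal (C1 * T ^ (1 - 2 * δ)) * ∫⁻ t in Icc T (2 * T), ‖F t‖ₑ ^ 2 :=
    fun F hF => h1 T F hn hF
  obtain ⟨Z, hZ⟩ : ∃ Z, Z = ENNReal.ofReal (C1 * T ^ (1 - 2 * δ)) *
      ENNReal.ofReal (C2 * (2 * T) ^ (1 + ε)) / ENNReal.ofReal (τ ^ 2) := ⟨_, rfl⟩
  have hsub : Bad k F A c θ ρ n ⊆ ⋃ i ∈ Finset.range N,
      (({l : Fin k → ℝ | τ < JJ F l T (gp θ n i)} ∩ Icc (fun _ => A⁻¹) (fun _ => A)) ∪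
      ({l : Fin k → ℝ | τ < JJ (fun t => ((‖F t‖ : ℝ) : ℂ)) l (gp θ n i) (gp θ n (i + 1))} ∩
        Icc (fun _ => A⁻¹) (fun _ => A))) := by
    rintro l ⟨hl, i, hi, hor⟩
    rw [← hT, ← hτ] at hor
    rw [← hN] at hi
    have hbox : l ∈ Icc (fun _ : Fin k => A⁻¹) (fun _ => A) :=
      ⟨fun j => (hl j).1, fun j => (hl j).2⟩
    simp only [mem_iUnion]
    refine ⟨i, Finset.mem_range.2 hi, ?_⟩
    rcases hor with h | h
    · exact Or.inl ⟨h, hbox⟩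
    · exact Or.inr ⟨h, hbox⟩
  have hcells : ∀ i ∈ Finset.range N, volume
      (({l : Fin k → ℝ | τ < JJ F l T (gp θ n i)} ∩ Icc (fun _ => A⁻¹) (fun _ => A)) ∪
      ({l : Fin k → ℝ | τ < JJ (fun t => ((‖F t‖ : ℝ) : ℂ)) l (gp θ n i) (gp θ n (i + 1))} ∩
        Icc (fun _ => A⁻¹) (fun _ => A))) ≤ Z + Z := by
    intro i hi
    rw [Finset.mem_range] at hi
    refine (measure_union_le _ _).trans (add_le_add ?_ ?_)
    · rw [hZ]
      exact cell (c := c) hFm hTp le_rfl (hgp1 i hi.le) h3 hYF hτ0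
    · rw [hZ]
      exact cell (c := c) hGm hTp (hgp0 i) (hgp1 (i + 1) hi) h3 hYG hτ0
  refine (measure_mono hsub).trans ?_
  refine (measure_biUnion_finset_le _ _).trans ?_
  refine (Finset.sum_le_sum hcells).trans ?_
  rw [Finset.sum_const, Finset.card_range, nsmul_eq_mul]
  have eZ : Z = ENNReal.ofReal (C1 * T ^ (1 - 2 * δ) * (C2 * (2 * T) ^ (1 + ε)) / τ ^ 2) := by
    rw [hZ, ← ENNReal.ofReal_mul (by positivity), ENNReal.ofReal_div_of_pos (by positivity)]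
  rw [eZ, ← ENNReal.ofReal_add (by positivity) (by positivity), ← ENNReal.ofReal_natCast,
    ← ENNReal.ofReal_mul (by positivity)]
  apply ENNReal.ofReal_le_ofReal
  have p1 : (2 * T) ^ (1 + ε) = 2 ^ (1 + ε) * T ^ (1 + ε) := Real.mul_rpow (by norm_num) hTp.le
  have p2 : τ ^ 2 = c ^ 2 * T ^ (2 - 2 * ρ) := by
    rw [hτ, mul_pow]
    congr 1
    rw [← Real.rpow_natCast, ← Real.rpow_mul hTp.le]
    congr 1
    push_cast
    ring
  have p3 : T ^ (-κ) = T ^ θ * (T ^ (1 - 2 * δ) * T ^ (1 + ε)) / T ^ (2 - 2 * ρ) := by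
    rw [← Real.rpow_add hTp, ← Real.rpow_add hTp, ← Real.rpow_sub hTp]
    congr 1
    rw [hε]
    ring
  rw [p1, p2, p3]
  have q1 : 0 < T ^ (1 - 2 * δ) := by positivity
  have q2 : 0 < T ^ (1 + ε) := by positivity
  have q3 : 0 < T ^ (2 - 2 * ρ) := by positivity
  have q4 : (0 : ℝ) < 2 ^ (1 + ε) := by positivity
  calc (N : ℝ) * (C1 * T ^ (1 - 2 * δ) * (C2 * (2 ^ (1 + ε) * T ^ (1 + ε))) / (c ^ 2 * T ^ (2 - 2 * ρ)) +
        C1 * T ^ (1 - 2 * δ) * (C2 * (2 ^ (1 + ε) * T ^ (1 + ε))) / (c ^ 2 * T ^ (2 - 2 * ρ))) ≤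
      (2 * T ^ θ) * (C1 * T ^ (1 - 2 * δ) * (C2 * (2 ^ (1 + ε) * T ^ (1 + ε))) /
        (c ^ 2 * T ^ (2 - 2 * ρ)) +
        C1 * T ^ (1 - 2 * δ) * (C2 * (2 ^ (1 + ε) * T ^ (1 + ε))) / (c ^ 2 * T ^ (2 - 2 * ρ))) := by
        gcongr
    _ = 4 * C1 * C2 * 2 ^ (1 + ε) / c ^ 2 * (T ^ θ * (T ^ (1 - 2 * δ) * T ^ (1 + ε)) /
        T ^ (2 - 2 * ρ)) := by
        field_simp
        ring

end Pool.Agent.U511.GZ
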